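import Pool.Agent.Helper21.PS.Basic

/-!
# MP_8013d7_co (full answer): arc tables
-/

set_option autoImplicit false

namespace PS

open SimpleGraph Finset Pool.Agent.Helper37.PathSys
open Pool.Agent.Helper37.PathSys.PathSystem

open scoped Classical

noncomputable section

variable {n : ℕ} {G : SimpleGraph (Fin n)} {P : PathSystem G}

theorem KKs_card_le (a : Arc n) : (KKs a).card ≤ nb a := by
  unfold KKs nb
  refine card_le_card_of_injOn
    (fun p => if a p.1.1 p.1.2 ≠ none then (p.1.1, p.1.2) else (p.1.2, p.1.1)) ?_ ?_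
  · intro p hp
    rw [mem_coe, mem_filter] at hp
    rw [mem_coe, mem_filter]
    refine ⟨mem_univ _, ?_⟩
    by_cases h : a p.1.1 p.1.2 ≠ none
    · dsimp only
      rw [if_pos h]
      exact h
    · have h2 := hp.2.resolve_left h
      dsimp only
      rw [if_neg h]
      exact h2
  · rintro ⟨⟨u, v⟩, huv⟩ _ ⟨⟨u', v'⟩, huv'⟩ _ heq
    simp only at heq
    split_ifs at heq <;> simp only [Prod.mk.injEq] at heq <;> obtain ⟨rfl, rfl⟩ := heq
    · rfl
    · exact absurd huv (not_lt.2 huv'.le)
    · exact absurd huv (not_lt.2 huv'.le)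
    · rfl

theorem nb_le_two_KKs (a : Arc n) (h : ∀ y, a y y = none) : nb a ≤ 2 * (KKs a).card := by
  have h1 : (univ.filter fun q : Fin n × Fin n => a q.1 q.2 ≠ none) ⊆
      ((KKs a).image fun p => (p.1.1, p.1.2)) ∪ ((KKs a).image fun p => (p.1.2, p.1.1)) := by
    rintro ⟨y, u⟩ hq
    rw [mem_filter] at hq
    have hne : y ≠ u := by
      rintro rfl
      exact hq.2 (h y)
    rcases lt_or_gt_of_ne hne with h2 | h2
    · refine mem_union_left _ (mem_image.2 ⟨⟨(y, u), h2⟩, ?_, rfl⟩)
      unfold KKs
      rw [mem_filter]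
      exact ⟨mem_univ _, Or.inl hq.2⟩
    · refine mem_union_right _ (mem_image.2 ⟨⟨(u, y), h2⟩, ?_, rfl⟩)
      unfold KKs
      rw [mem_filter]
      exact ⟨mem_univ _, Or.inr hq.2⟩
  unfold nb
  refine (card_le_card h1).trans ((card_union_le _ _).trans ?_)
  have h2 : ((KKs a).image fun p => (p.1.1, p.1.2)).card ≤ (KKs a).card := card_image_le
  have h3 : ((KKs a).image fun p => (p.1.2, p.1.1)).card ≤ (KKs a).card := card_image_le
  omega

theorem arcP_mem_ArcV {s : ℕ} (hs : 1 ≤ s) : arcP s P ∈ ArcV n (n / s) := by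
  unfold ArcV
  rw [mem_filter]
  refine ⟨mem_univ _, fun y => ?_⟩
  rw [Nat.le_div_iff_mul_le hs]
  set X := univ.filter fun x => ∃ u, arcP s P y u = some x with hX
  have h1 : (X.biUnion fun x => Bs P x y).card = ∑ x ∈ X, (Bs P x y).card := by
    refine card_biUnion ?_
    intro x _ x' _ hne
    rw [Function.onFun, Finset.disjoint_left]
    intro u hu hu'
    rw [mem_Bs] at hu hu'
    exact hne (hu.2.symm.trans hu'.2)
  have h2 : X.card * s ≤ ∑ x ∈ X, (Bs P x y).card := by
    rw [← smul_eq_mul]
    refine Finset.card_nsmul_le_sum _ _ _ fun x hx => ?_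
    rw [hX, mem_filter] at hx
    obtain ⟨u, hu⟩ := hx.2
    exact (arcP_eq_some.1 hu).2.2.2
  have h3 : (X.biUnion fun x => Bs P x y).card ≤ n := by
    have := card_le_univ (X.biUnion fun x => Bs P x y)
    rwa [Fintype.card_fin] at this
  omega

/-- weights as products -/
lemma pow_card_ne_none {α β : Type} [Fintype α] (f : α → Option β) (t : ℝ) :
    t ^ (univ.filter fun u => f u ≠ none).card = ∏ u, (if f u ≠ none then t else 1) := by
  rw [Finset.prod_ite]
  simp

lemma sum_option (r : ℕ) (t : ℝ) :
    ∑ o : Option (Fin r), (if o ≠ none then t else 1) = 1 + r * t := by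
  rw [Fintype.sum_option]
  simp

/-- rows with at most `r` values -/
lemma row_sum (n r : ℕ) (hn : 0 < n) (t : ℝ) (ht : 0 ≤ t) :
    ∑ b ∈ (univ : Finset (Fin n → Option (Fin n))).filter
      (fun b => (univ.filter fun x => ∃ u, b u = some x).card ≤ r),
      t ^ (univ.filter fun u => b u ≠ none).card ≤ (n : ℝ) ^ r * (1 + r * t) ^ n := by
  -- codes: a vector of `r` values and for every `u` none or an index
  have hch : ∀ b : Fin n → Option (Fin n), ∃ d : (Fin r → Fin n) × (Fin n → Option (Fin r)),
      (univ.filter fun x => ∃ u, b u = some x).card ≤ r →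
        ∀ u, b u = (d.2 u).map d.1 := by
    intro b
    set X := univ.filter fun x => ∃ u, b u = some x with hX
    by_cases hb : X.card ≤ r
    · set c : Fin r → Fin n := fun j => if h : j.val < X.card then
        (X.equivFin.symm ⟨j.val, h⟩ : Fin n) else ⟨0, hn⟩ with hc
      have hsurj : ∀ x ∈ X, ∃ j, c j = x := by
        intro x hx
        refine ⟨⟨(X.equivFin ⟨x, hx⟩).val, lt_of_lt_of_le (X.equivFin ⟨x, hx⟩).2 hb⟩, ?_⟩
        simp [hc]
      refine ⟨(c, fun u => if h : ∃ j, b u = some (c j) then some (Classical.choose h)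
        else none), fun _ u => ?_⟩
      dsimp only
      by_cases h : ∃ j, b u = some (c j)
      · rw [dif_pos h, Option.map_some]
        exact Classical.choose_spec h
      · rw [dif_neg h, Option.map_none]
        rcases hbu : b u with _ | x
        · rfl
        · exfalso
          obtain ⟨j, hj⟩ := hsurj x (by rw [hX, mem_filter]; exact ⟨mem_univ _, u, hbu⟩)
          exact h ⟨j, by rw [hbu, hj]⟩
    · exact ⟨(fun _ => ⟨0, hn⟩, fun _ => none), fun h => absurd h hb⟩
  choose d hd using hch
  set S := (univ : Finset (Fin n → Option (Fin n))).filter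
      (fun b => (univ.filter fun x => ∃ u, b u = some x).card ≤ r) with hS
  have hinj : Set.InjOn d (S : Set (Fin n → Option (Fin n))) := by
    intro b hb b' hb' heq
    rw [mem_coe, hS, mem_filter] at hb hb'
    funext u
    rw [hd b hb.2 u, hd b' hb'.2 u, heq]
  have h1 : ∑ b ∈ S, t ^ (univ.filter fun u => b u ≠ none).card =
      ∑ e ∈ S.image d, t ^ (univ.filter fun u => e.2 u ≠ none).card := by
    rw [Finset.sum_image hinj]
    refine Finset.sum_congr rfl fun b hb => ?_
    rw [hS, mem_filter] at hb
    congr 2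
    ext u
    simp only [mem_filter, mem_univ, true_and]
    rw [hd b hb.2 u]
    simp
  rw [h1]
  refine (Finset.sum_le_sum_of_subset_of_nonneg (subset_univ _)
    (fun e _ _ => by positivity)).trans (le_of_eq ?_)
  rw [← Finset.univ_product_univ, Finset.sum_product]
  simp only
  rw [Finset.sum_const, card_univ, Fintype.card_fun, Fintype.card_fin, Fintype.card_fin,
    nsmul_eq_mul]
  push_cast
  congr 1
  simp only [pow_card_ne_none]
  have h2 := Finset.prod_univ_sum (fun _ : Fin n => (univ : Finset (Option (Fin r))))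
    (fun (_ : Fin n) (o : Option (Fin r)) => if o ≠ none then t else 1)
  rw [Fintype.piFinset_univ] at h2
  rw [← h2]
  simp only [sum_option]
  rw [Finset.prod_const, card_univ, Fintype.card_fin]

lemma nb_eq (a : Arc n) : nb a = ∑ y, (univ.filter fun u => a y u ≠ none).card := by
  unfold nb
  rw [Finset.card_filter, ← Finset.univ_product_univ, Finset.sum_product]
  refine Finset.sum_congr rfl fun y _ => ?_
  rw [Finset.card_filter]

theorem arc_sum (n r : ℕ) (t : ℝ) (ht : 0 ≤ t) :
    ∑ a ∈ ArcV n r, t ^ nb a ≤ (n : ℝ) ^ (r * n) * (1 + r * t) ^ (n ^ 2) := by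
  rcases Nat.eq_zero_or_pos n with h0 | hn
  · subst h0
    have h1 : ∑ a ∈ ArcV 0 r, t ^ nb a ≤ ∑ a : Arc 0, (1 : ℝ) := by
      refine (Finset.sum_le_sum_of_subset_of_nonneg (subset_univ _)
        (fun e _ _ => by positivity)).trans (Finset.sum_le_sum fun a _ => ?_)
      have : nb a = 0 := by
        unfold nb
        rw [card_eq_zero]
        ext q
        exact q.1.elim0
      rw [this, pow_zero]
    refine h1.trans ?_
    simp
  · have h1 : ArcV n r = Fintype.piFinset (fun _ : Fin n =>
        (univ : Finset (Fin n → Option (Fin n))).filter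
      (fun b => (univ.filter fun x => ∃ u, b u = some x).card ≤ r)) := by
      ext a
      simp [ArcV, Fintype.mem_piFinset]
    have h2 : ∀ a : Arc n, t ^ nb a = ∏ y, t ^ (univ.filter fun u => a y u ≠ none).card := by
      intro a
      rw [nb_eq, Finset.prod_pow_eq_pow_sum]
    simp only [h2]
    rw [h1, Finset.sum_prod_piFinset (ι := Fin n) (κ := Fin n → Option (Fin n))
      (g := fun (_ : Fin n) b => t ^ (univ.filter fun u => b u ≠ none).card)]
    refine (Finset.prod_le_prod (fun y _ => Finset.sum_nonneg fun b _ => by positivity)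
      (fun y _ => row_sum n r hn t ht)).trans (le_of_eq ?_)
    rw [Finset.prod_const, card_univ, Fintype.card_fin, mul_pow, ← pow_mul, ← pow_mul]
    congr 2
    ring

end

end PS
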