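import Pool.Agent.Helper21.PS.Defs

/-!
# MP_8013d7_co (full answer): basic facts on next vertices
-/

set_option autoImplicit false

namespace PS

open SimpleGraph Finset Pool.Agent.Helper37.PathSys
open Pool.Agent.Helper37.PathSys.PathSystem

open scoped Classical

noncomputable section

variable {n : ℕ} {G : SimpleGraph (Fin n)} {P P' : PathSystem G}

lemma path_cons (hP : P.Consistent) {u v : Fin n} (h : u ≠ v) :
    ∃ hadj : G.Adj u (P.nxt u v), (P.path u v : G.Walk u v) =
      Walk.cons hadj (P.path (P.nxt u v) v : G.Walk (P.nxt u v) v) := by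
  obtain ⟨x, hx, rfl, hp⟩ := exists_cons hP h
  exact ⟨hx, hp⟩

lemma adjG_nxt (hP : P.Consistent) {u v : Fin n} (h : u ≠ v) : G.Adj u (P.nxt u v) :=
  (path_cons hP h).1

lemma nxt_ne (hP : P.Consistent) {u v : Fin n} (h : u ≠ v) : P.nxt u v ≠ u :=
  (adjG_nxt hP h).ne'

lemma path_len (hP : P.Consistent) {u v : Fin n} (h : u ≠ v) :
    (P.path u v : G.Walk u v).length =
      (P.path (P.nxt u v) v : G.Walk (P.nxt u v) v).length + 1 := by
  obtain ⟨ha, hp⟩ := path_cons hP h
  rw [hp, Walk.length_cons]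

lemma path_self_len (P : PathSystem G) (u : Fin n) : (P.path u u : G.Walk u u).length = 0 := by
  rw [path_self]
  rfl

lemma path_eq_edge (hP : P.Consistent) {u v : Fin n} (h : u ≠ v) (hn : P.nxt u v = v) :
    ∃ ha : G.Adj u v, (P.path u v : G.Walk u v) = Walk.cons ha Walk.nil := by
  have h1 := path_len hP h
  have h2 : (P.path (P.nxt u v) v : G.Walk (P.nxt u v) v).length = 0 := by
    rw [hn]
    exact path_self_len P v
  exact eq_edge_of_length _ (by omega)

lemma nxt_symm_of_dir (hP : P.Consistent) {u v : Fin n} (h : u ≠ v) (hn : P.nxt u v = v) :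
    P.nxt v u = u := by
  obtain ⟨ha, hp⟩ := path_eq_edge hP h hn
  unfold nxt
  rw [P.symm u v, hp]
  simp

lemma dirG_adj (hP : P.Consistent) {u v : Fin n} (h : u ≠ v) :
    (dirG P).Adj u v ↔ P.nxt u v = v :=
  ⟨fun h' => h'.2.1, fun h' => ⟨h, h', nxt_symm_of_dir hP h h'⟩⟩

lemma dirG_ne {u v : Fin n} (h : (dirG P).Adj u v) : u ≠ v := h.1

lemma dirG_le (hP : P.Consistent) : dirG P ≤ G := by
  intro u v h
  exact (path_eq_edge hP h.1 h.2.1).1

lemma path_dir (hP : P.Consistent) {u v : Fin n} (h : (dirG P).Adj u v) :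
    (P.path u v : G.Walk u v) = Walk.cons (dirG_le hP h) Walk.nil :=
  (path_eq_edge hP h.1 h.2.1).2

/-- the first edge of a path of the system is direct -/
lemma adj_nxt (hP : P.Consistent) {u v : Fin n} (h : u ≠ v) : (dirG P).Adj u (P.nxt u v) := by
  obtain ⟨ha, hp⟩ := path_cons hP h
  have h1 := hP u v u (P.nxt u v) Walk.nil (Walk.cons ha Walk.nil)
    (P.path (P.nxt u v) v : G.Walk (P.nxt u v) v) (by rw [hp]; simp)
  rw [dirG_adj hP ha.ne]
  change (P.path u (P.nxt u v) : G.Walk u (P.nxt u v)).snd = P.nxt u v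
  rw [← h1]
  simp

/-- the last vertex does not depend on the starting point -/
lemma nxt_rev (hP : P.Consistent) {u y : Fin n} (h : u ≠ y) (hx : P.nxt u y ≠ y) :
    P.nxt y (P.nxt u y) = P.nxt y u := by
  obtain ⟨ha, hp⟩ := path_cons hP h
  obtain ⟨hb, hq⟩ := path_cons hP (Ne.symm hx)
  change P.nxt y (P.nxt u y) = (P.path y u : G.Walk y u).snd
  rw [P.symm u y, hp, Walk.reverse_cons, ← P.symm, hq]
  simp

lemma path_two (hP : P.Consistent) {u x v : Fin n} (h : u ≠ v) (hx : P.nxt u v = x)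
    (hd : (dirG P).Adj x v) :
    ∃ (ha : G.Adj u x) (hb : G.Adj x v),
      (P.path u v : G.Walk u v) = Walk.cons ha (Walk.cons hb Walk.nil) := by
  subst hx
  obtain ⟨ha, hp⟩ := path_cons hP h
  exact ⟨ha, dirG_le hP hd, by rw [hp, path_dir hP hd]⟩

/-- a system is determined by the next vertices, one direction for every pair -/
lemma eq_of_nxt_any (hP : P.Consistent) (hP' : P'.Consistent)
    (h : ∀ u v, u < v → P.path u v = P'.path u v ∨ P.nxt u v = P'.nxt u v ∨
      P.nxt v u = P'.nxt v u) : P = P' := by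
  have key : ∀ (k : ℕ) (u v : Fin n), (P.path u v : G.Walk u v).length = k →
      P.path u v = P'.path u v := by
    intro k
    induction k using Nat.strong_induction_on with
    | _ k ih =>
      have hsym : ∀ u v : Fin n, P.path u v = P'.path u v → P.path v u = P'.path v u := by
        intro u v huv
        apply Subtype.ext
        rw [P.symm u v, P'.symm u v, huv]
      have step : ∀ u v : Fin n, u ≠ v → (P.path u v : G.Walk u v).length = k →
          P.nxt u v = P'.nxt u v → P.path u v = P'.path u v := by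
        intro u v huv hk h1
        obtain ⟨x, hx, hxn, hpx⟩ := exists_cons hP huv
        obtain ⟨x', hx', hxn', hpx'⟩ := exists_cons hP' huv
        obtain rfl : x = x' := by rw [hxn, hxn', h1]
        have hlen : (P.path x v : G.Walk x v).length < k := by
          rw [hpx, Walk.length_cons] at hk
          omega
        have h2 := ih _ hlen x v rfl
        apply Subtype.ext
        rw [hpx, hpx', h2]
      have lt_case : ∀ u v : Fin n, u < v → (P.path u v : G.Walk u v).length = k →
          P.path u v = P'.path u v := by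
        intro u v huv hk
        rcases h u v huv with h1 | h1 | h1
        · exact h1
        · exact step u v huv.ne hk h1
        · apply hsym
          refine step v u huv.ne' ?_ h1
          rw [P.symm u v, Walk.length_reverse, hk]
      intro u v hk
      rcases lt_trichotomy u v with huv | rfl | huv
      · exact lt_case u v huv hk
      · rw [path_self, path_self]
      · apply hsym
        apply lt_case v u huv
        rw [P.symm u v, Walk.length_reverse, hk]
  apply PathSystem.ext
  funext u v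
  exact key _ u v rfl

lemma mem_Bs {x y u : Fin n} : u ∈ Bs P x y ↔ u ≠ y ∧ P.nxt u y = x := by
  simp [Bs]

lemma arcP_eq_some {s : ℕ} {y u x : Fin n} :
    arcP s P y u = some x ↔ u ≠ y ∧ P.nxt u y = x ∧ hv s P x y := by
  unfold arcP
  split_ifs with h
  · simp only [Option.some.injEq]
    constructor
    · rintro rfl
      exact ⟨h.1, rfl, h.2⟩
    · rintro ⟨_, h2, _⟩
      exact h2
  · simp only [false_iff]
    rintro ⟨h1, rfl, h3⟩
    exact h ⟨h1, h3⟩

lemma arcP_ne_none {s : ℕ} {y u : Fin n} :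
    arcP s P y u ≠ none ↔ u ≠ y ∧ hv s P (P.nxt u y) y := by
  unfold arcP
  split_ifs with h
  · simp [h.1, h.2]
  · simp only [ne_eq, not_true_eq_false, false_iff]
    exact h

lemma arcOK (hP : P.Consistent) (s : ℕ) : ArcOK (dirG P) (arcP s P) := by
  intro y u x h
  obtain ⟨h1, rfl, h3⟩ := arcP_eq_some.1 h
  refine ⟨adj_nxt hP h1, h3.1, h1, ?_⟩
  rw [dirG_adj hP h1]
  exact h3.1

lemma revP_eq (hP : P.Consistent) {s : ℕ} {y u x : Fin n} (h : arcP s P y u = some x) :
    P.nxt y u = revP s P y x := by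
  obtain ⟨h1, rfl, h3⟩ := arcP_eq_some.1 h
  unfold revP
  rw [if_pos h3, nxt_rev hP h1 h3.1]

lemma hv_iff {s : ℕ} (hs : 1 ≤ s) {x y : Fin n} :
    hv s P x y ↔ ∃ u, arcP s P y u = some x := by
  constructor
  · rintro ⟨h1, h2⟩
    have : (Bs P x y).Nonempty := by
      rw [← card_pos]
      omega
    obtain ⟨u, hu⟩ := this
    rw [mem_Bs] at hu
    exact ⟨u, arcP_eq_some.2 ⟨hu.1, hu.2, h1, h2⟩⟩
  · rintro ⟨u, hu⟩
    exact (arcP_eq_some.1 hu).2.2

lemma mem_Rem {F : SimpleGraph (Fin n)} {a : Arc n} {p : Pr n} :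
    p ∈ Rem F a ↔ ¬ F.Adj p.1.1 p.1.2 ∧ a p.1.1 p.1.2 = none ∧ a p.1.2 p.1.1 = none := by
  simp only [Rem, KKs, mem_filter, mem_univ, true_and, not_or, not_not, ne_eq]

/-- the vertices of `B_xy` are adjacent to `x` and not to `y` -/
lemma Bs_spec (hP : P.Consistent) {x y u : Fin n} (hxy : x ≠ y) (h : u ∈ Bs P x y) :
    (dirG P).Adj u x ∧ ¬ (dirG P).Adj u y := by
  rw [mem_Bs] at h
  obtain ⟨h1, rfl⟩ := h
  exact ⟨adj_nxt hP h1, by rw [dirG_adj hP h1]; exact hxy⟩

/-- the two possibilities for a pair in `Rem` -/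
lemma rem_cases (hP : P.Consistent) {u v : Fin n} (huv : u ≠ v) (hd : ¬ (dirG P).Adj u v) :
    (dirG P).Adj u (P.nxt u v) ∧ (dirG P).Adj v (P.nxt v u) ∧ P.nxt u v ≠ v ∧ P.nxt v u ≠ u ∧
      P.nxt u (P.nxt v u) = P.nxt u v ∧ P.nxt v (P.nxt u v) = P.nxt v u := by
  have h1 : P.nxt u v ≠ v := by rwa [dirG_adj hP huv] at hd
  have h2 : P.nxt v u ≠ u := by
    intro h
    exact hd ((dirG_adj hP huv.symm).2 h).symm
  exact ⟨adj_nxt hP huv, adj_nxt hP huv.symm, h1, h2, nxt_rev hP huv.symm h2, nxt_rev hP huv h1⟩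

end

end PS
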