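import Pool.Agent.Helper37.PathSys.Random

/-!
# MP_8013d7_co (full answer): definitions

`F` is a graph (the graph of the direct edges of a path system), `a` is the table of the
heavy arcs: `a y u = some x` means that the path from `u` to `y` starts with the edge `ux`
and that `(x, y)` is heavy.
-/

set_option autoImplicit false

namespace PS

open SimpleGraph Finset Pool.Agent.Helper37.PathSys
open Pool.Agent.Helper37.PathSys.PathSystem

open scoped Classical

noncomputable section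

variable {n : ℕ}

/-! ## graphs -/

/-- the neighbours of `x` -/
def NF (F : SimpleGraph (Fin n)) (x : Fin n) : Finset (Fin n) := univ.filter fun u => F.Adj x u

/-- degree -/
def dg (F : SimpleGraph (Fin n)) (x : Fin n) : ℕ := (NF F x).card

/-- number of edges -/
def nE (F : SimpleGraph (Fin n)) : ℕ := (univ.filter fun p : Pr n => F.Adj p.1.1 p.1.2).card

/-- number of common neighbours -/
def cod (F : SimpleGraph (Fin n)) (u v : Fin n) : ℕ :=
  (univ.filter fun x => F.Adj u x ∧ F.Adj v x).card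

/-- the hubs: vertices of degree at least `n / 100` -/
def Hs (F : SimpleGraph (Fin n)) : Finset (Fin n) := univ.filter fun x => n ≤ 100 * dg F x

/-- number of edges missing the hubs -/
def f0 (F : SimpleGraph (Fin n)) : ℕ :=
  (univ.filter fun p : Pr n => F.Adj p.1.1 p.1.2 ∧ p.1.1 ∉ Hs F ∧ p.1.2 ∉ Hs F).card

/-- total degree deficit of the hubs -/
def MH (δ : ℝ) (F : SimpleGraph (Fin n)) : ℝ := ∑ x ∈ Hs F, ((1 / 2 + δ) * n - dg F x)

/-- the first `h` vertices -/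
def H0 (n h : ℕ) : Finset (Fin n) := univ.filter fun i => i.val < h

/-- the properties of `G(n, 1/2)` that are used -/
structure GoodG (δ : ℝ) (h : ℕ) (G : SimpleGraph (Fin n)) : Prop where
  deg : ∀ x, (dg G x : ℝ) ≤ (1 / 2 + δ) * n
  union : ∀ x y, x ≠ y → ((NF G x ∪ NF G y).card : ℝ) ≤ (3 / 4 + δ) * n
  inter : ∀ x y, x ≠ y → ((NF G x ∩ NF G y).card : ℝ) ≤ (1 / 4 + δ) * n
  hub : ∀ u v, u ≠ v → (1 / 4 - δ) * h ≤ ((common G (H0 n h) u v).card : ℝ)

/-- the relations between the parameters -/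
structure Par (n h : ℕ) (lam δ : ℝ) : Prop where
  big : 10 ^ 6 ≤ lam
  eq : lam = Real.log ((h : ℝ) / 4)
  close : |(n : ℝ) / h - lam| ≤ 2
  dpos : 0 ≤ δ
  dsmall : δ * lam ^ 4 ≤ 1
  nbig : (n : ℝ) ^ (-(1 / 10000 : ℝ)) * lam ^ 10 ≤ 1

/-- number of pairs, as a real number -/
def NN (n : ℕ) : ℝ := (n.choose 2 : ℝ)

/-! ## arcs -/

/-- tables of heavy arcs -/
abbrev Arc (n : ℕ) := Fin n → Fin n → Option (Fin n)

/-- number of arcs -/
def nb (a : Arc n) : ℕ := (univ.filter fun q : Fin n × Fin n => a q.1 q.2 ≠ none).card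

/-- number of `u` with `a y u = some x` -/
def ba (a : Arc n) (x y : Fin n) : ℕ := (univ.filter fun u => a y u = some x).card

/-- pairs joined by an arc in at least one direction -/
def KKs (a : Arc n) : Finset (Pr n) :=
  univ.filter fun p => a p.1.1 p.1.2 ≠ none ∨ a p.1.2 p.1.1 ≠ none

/-- number of heavy-heavy long options of the pair `u, v` -/
def lh (a : Arc n) (u v : Fin n) : ℕ :=
  (univ.filter fun q : Fin n × Fin n => q.1 ≠ q.2 ∧ a q.2 u = some q.1 ∧ a q.1 v = some q.2).card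

/-- the remaining pairs -/
def Rem (F : SimpleGraph (Fin n)) (a : Arc n) : Finset (Pr n) :=
  univ.filter fun p => ¬ F.Adj p.1.1 p.1.2 ∧ p ∉ KKs a

/-- number of options of the pair `p` -/
def kap (F : SimpleGraph (Fin n)) (a : Arc n) (p : Pr n) : ℕ :=
  cod F p.1.1 p.1.2 + lh a p.1.1 p.1.2

/-- the property of the arc tables of path systems -/
def ArcOK (F : SimpleGraph (Fin n)) (a : Arc n) : Prop :=
  ∀ y u x, a y u = some x → F.Adj u x ∧ x ≠ y ∧ u ≠ y ∧ ¬ F.Adj u y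

/-- arc tables with at most `r` different values in every row -/
def ArcV (n r : ℕ) : Finset (Arc n) :=
  univ.filter fun a => ∀ y, (univ.filter fun x => ∃ u, a y u = some x).card ≤ r

/-- the deficit function -/
def psi (t : ℝ) : ℝ := t - 1 - Real.log t

/-- the deficit -/
def Psi (h : ℕ) (ξ : ℝ) (F : SimpleGraph (Fin n)) (a : Arc n) : ℝ :=
  ∑ p ∈ Rem F a, psi (4 * ((kap F a p : ℝ) + ξ) / h)

/-! ## path systems -/

variable {G : SimpleGraph (Fin n)}

instance : Fintype (PathSystem G) := Fintype.ofFinite _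

/-- the consistent path systems -/
def Al (G : SimpleGraph (Fin n)) : Finset (PathSystem G) := univ.filter fun P => P.Consistent

/-- the graph of the direct pairs -/
def dirG (P : PathSystem G) : SimpleGraph (Fin n) where
  Adj u v := u ≠ v ∧ P.nxt u v = v ∧ P.nxt v u = u
  symm := ⟨fun _ _ h => ⟨h.1.symm, h.2.2, h.2.1⟩⟩
  loopless := ⟨fun _ h => h.1 rfl⟩

/-- the vertices from which one goes to `y` by a path whose second vertex is `x` -/
def Bs (P : PathSystem G) (x y : Fin n) : Finset (Fin n) :=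
  univ.filter fun u => u ≠ y ∧ P.nxt u y = x

/-- `(x, y)` is heavy -/
def hv (s : ℕ) (P : PathSystem G) (x y : Fin n) : Prop := x ≠ y ∧ s ≤ (Bs P x y).card

/-- the table of heavy arcs -/
def arcP (s : ℕ) (P : PathSystem G) : Arc n := fun y u =>
  if u ≠ y ∧ hv s P (P.nxt u y) y then some (P.nxt u y) else none

/-- the last vertices of heavy paths -/
def revP (s : ℕ) (P : PathSystem G) : Fin n → Fin n → Fin n := fun y x =>
  if hv s P x y then P.nxt y x else y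

/-- light long pairs -/
def LLs (s : ℕ) (P : PathSystem G) : Finset (Pr n) :=
  univ.filter fun p => p ∈ Rem (dirG P) (arcP s P) ∧ P.nxt p.1.1 p.1.2 ≠ P.nxt p.1.2 p.1.1 ∧
    ¬ (hv s P (P.nxt p.1.1 p.1.2) (P.nxt p.1.2 p.1.1) ∧
      hv s P (P.nxt p.1.2 p.1.1) (P.nxt p.1.1 p.1.2))

/-- visible light long pairs -/
def Vis (W : Finset (Fin n)) (s : ℕ) (P : PathSystem G) : Finset (Pr n) :=
  (LLs s P).filter fun p => p.1.1 ∈ W ∧ p.1.2 ∈ W ∧ P.nxt p.1.1 p.1.2 ∉ W ∧ P.nxt p.1.2 p.1.1 ∉ W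

/-- the path joining `a` and `b` is not a proper part of another path of the system -/
def Free (P : PathSystem G) (a b : Fin n) : Prop :=
  (∀ v, v ≠ a → P.nxt v a ≠ b) ∧ (∀ u, u ≠ b → P.nxt u b ≠ a)

/-- the pairs that are neither direct nor free -/
def NonFree (P : PathSystem G) : Finset (Pr n) :=
  univ.filter fun p => ¬ (dirG P).Adj p.1.1 p.1.2 ∧ ¬ Free P p.1.1 p.1.2

/-- typical path systems -/
structure Typ (K δ lam ξ : ℝ) (h s : ℕ) (P : PathSystem G) : Prop where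
  edges : (nE (dirG P) : ℝ) ≤ 4 * NN n / lam
  f0 : (f0 (dirG P) : ℝ) ≤ K * NN n / lam ^ 2
  mh : MH δ (dirG P) ≤ K * NN n / lam ^ 2
  nb : (nb (arcP s P) : ℝ) ≤ K * NN n / lam ^ 2
  ll : ((LLs s P).card : ℝ) ≤ K * NN n / lam ^ 2
  psi : Psi h ξ (dirG P) (arcP s P) ≤ K * NN n / lam

/-- quadruples `(u, v, x, y)` at which a 3-path can be put in -/
def Quad (P : PathSystem G) : Finset (Fin n × Fin n × Fin n × Fin n) :=
  univ.filter fun q =>
    (dirG P).Adj q.2.2.1 q.2.2.2 ∧ (dirG P).Adj q.1 q.2.2.1 ∧ (dirG P).Adj q.2.1 q.2.2.2 ∧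
    ¬ (dirG P).Adj q.1 q.2.2.2 ∧ ¬ (dirG P).Adj q.2.1 q.2.2.1 ∧ ¬ (dirG P).Adj q.1 q.2.1 ∧
    q.1 ≠ q.2.2.2 ∧ q.2.1 ≠ q.2.2.1 ∧ q.1 ≠ q.2.1 ∧
    q.2.2.1 ∈ Hs (dirG P) ∧ q.2.2.2 ∈ Hs (dirG P) ∧
    Free P q.1 q.2.2.2 ∧ Free P q.2.1 q.2.2.1 ∧ Free P q.1 q.2.1

/-- every large part of a neighbourhood of `z` contains a pair joined through `z` -/
def RR (ε : ℝ) (P : PathSystem G) : Prop :=
  ∀ (z : Fin n) (A : Finset (Fin n)), (∀ a ∈ A, (dirG P).Adj z a) → ε * n ≤ (A.card : ℝ) →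
    ∃ a ∈ A, ∃ b ∈ A, a ≠ b ∧ P.nxt a b = z ∧ P.nxt b a = z

/-- the weights for which the paths of pairs on one side of `W` are shortest -/
def Cn (W : Finset (Fin n)) (P : PathSystem G) : Set (Sym2 (Fin n) → ℝ) :=
  {w | (∀ e ∈ G.edgeSet, 0 < w e) ∧
    ∀ a b : Fin n, (a ∈ W ↔ b ∈ W) → ∀ q : G.Path a b,
      weight w (P.path a b : G.Walk a b) ≤ weight w (q : G.Walk a b)}

/-- `uz` and `ux` have the same length for all these weights -/
def Rig (W : Finset (Fin n)) (P : PathSystem G) (u z x : Fin n) : Prop :=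
  ∀ w ∈ Cn W P, w s(u, z) = w s(u, x)

/-- the quadruples at rigid positions -/
def TT (W : Finset (Fin n)) (P : PathSystem G) : Finset (Fin n × Fin n × Fin n × Fin n) :=
  (Quad P).filter fun q => q.1 ∈ W ∧ q.2.2.1 ∈ W ∧ q.2.1 ∉ W ∧ q.2.2.2 ∉ W ∧
    ∃ z, (dirG P).Adj q.1 z ∧ (dirG P).Adj q.2.1 z ∧ Rig W P q.1 z q.2.2.1 ∧
      Rig W P q.2.1 z q.2.2.2

/-- the metrizable path systems -/
def Met (G : SimpleGraph (Fin n)) : Finset (PathSystem G) :=
  (Al G).filter fun P => ∃ w : Sym2 (Fin n) → ℝ, P.Induces w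

/-! ## parameters -/

/-- threshold for heavy pairs -/
def ss (n : ℕ) : ℕ := ⌈(n : ℝ) ^ (0.98 : ℝ)⌉₊

/-- the number `n ^ 0.99` -/
def qq (n : ℕ) : ℝ := (n : ℝ) ^ (0.99 : ℝ)

/-- the number `n ^ (1 / 6400)` -/
def tau (n : ℕ) : ℝ := (n : ℝ) ^ (1 / 6400 : ℝ)

/-- the number `2 n ^ (1 - 1 / 6400)` -/
def xi (n : ℕ) : ℝ := 2 * (n : ℝ) ^ (1 - 1 / 6400 : ℝ)

/-- number of hubs -/
def hh (n : ℕ) : ℕ := ⌊(n : ℝ) / (Real.log n - Real.log (Real.log n))⌋₊

/-- the parameter `λ` -/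
def lam (n : ℕ) : ℝ := Real.log ((hh n : ℝ) / 4)

/-- the parameter `δ` -/
def dl (n : ℕ) : ℝ := (n : ℝ) ^ (-(1 / 4) : ℝ)

end

end PS
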