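import Pool.Agent.Helper21.PS.AS
import Pool.Agent.Helper26.PS.PLfin
import Pool.Agent.Helper37.PS.LB
import Pool.Agent.Helper42.PS.FS
import Pool.Agent.Helper80.PS.NU
import Pool.Agent.Helper89.PS.PO

/-!
# MP_8013d7_co (full answer): typical path systems
-/

set_option autoImplicit false

namespace PS

open SimpleGraph Finset Pool.Agent.Helper37.PathSys
open Pool.Agent.Helper37.PathSys.PathSystem
open Filter Topology

open scoped Classical

noncomputable section

section

variable {n : ℕ} {G : SimpleGraph (Fin n)} {h : ℕ} {lam δ : ℝ}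

lemma ty_psi_nonneg {t : ℝ} (ht : 0 < t) : 0 ≤ psi t := by
  unfold psi
  have := Real.log_le_sub_one_of_pos ht
  linarith

lemma ty_Psi_nonneg (hh : (0 : ℝ) < h) {ξ : ℝ} (hξ : 0 < ξ) (F : SimpleGraph (Fin n)) (a : Arc n) :
    0 ≤ Psi h ξ F a := by
  unfold Psi
  refine Finset.sum_nonneg fun p _ => ty_psi_nonneg ?_
  have : (0 : ℝ) ≤ kap F a p := Nat.cast_nonneg _
  positivity

lemma ty_dg_mono {F : SimpleGraph (Fin n)} (hF : F ≤ G) (x : Fin n) : dg F x ≤ dg G x := by
  unfold dg NF
  refine card_le_card fun u hu => ?_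
  rw [mem_filter] at hu ⊢
  exact ⟨hu.1, hF hu.2⟩

lemma ty_MH_nonneg (hG : GoodG δ h G) {F : SimpleGraph (Fin n)} (hF : F ≤ G) : 0 ≤ MH δ F := by
  unfold MH
  refine Finset.sum_nonneg fun x _ => ?_
  have h1 := hG.deg x
  have h2 : (dg F x : ℝ) ≤ dg G x := by exact_mod_cast ty_dg_mono hF x
  linarith

lemma ty_one_add_exp_pow {N : ℕ} {a b : ℝ} (hb : (N : ℝ) * Real.exp (-a) ≤ b) :
    (1 + Real.exp (-a)) ^ N ≤ Real.exp b := by
  have h1 : 1 + Real.exp (-a) ≤ Real.exp (Real.exp (-a)) := by
    have := Real.add_one_le_exp (Real.exp (-a))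
    linarith
  calc (1 + Real.exp (-a)) ^ N ≤ (Real.exp (Real.exp (-a))) ^ N := by
        apply pow_le_pow_left₀ _ h1
        positivity
    _ = Real.exp (N * Real.exp (-a)) := by rw [← Real.exp_nat_mul]
    _ ≤ Real.exp b := Real.exp_le_exp.2 hb

/-- the common part of the two counting arguments -/
lemma ty_count_class (hp : Par n h lam δ) (A : Finset (PathSystem G)) (hA : A ⊆ Al G)
    (g : SimpleGraph (Fin n) → Arc n → ℝ) (hg : ∀ F a, 0 ≤ g F a)
    (w : SimpleGraph (Fin n) → ℝ) (B S : ℝ) (hw : ∀ F, 0 ≤ w F)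
    (hb : ∀ P ∈ A, g (dirG P) (arcP (ss n) P) *
      ∏ p ∈ Rem (dirG P) (arcP (ss n) P), ((kap (dirG P) (arcP (ss n) P) p : ℝ) + xi n) ≤
        Real.exp B * (w (dirG P) * Real.exp (-(0.05 * lam)) ^ nb (arcP (ss n) P)))
    (hS : ∑ F ∈ (univ : Finset (SimpleGraph (Fin n))).filter (fun F => F ≤ G), w F ≤
      Real.exp S) :
    ∑ P ∈ A, g (dirG P) (arcP (ss n) P) * tau n ^ (LLs (ss n) P).card ≤
      Real.exp (B + S + 5 * (NN n / lam)) := by
  obtain ⟨hn1, hn2, hn3, hn4, hn5, hn6, hn7, hn8, hn9⟩ := num_n hp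
  obtain ⟨hq1, hq2, hq3, hq4, hq5, hq6, hq7, hq8, hq9⟩ := num_q hp
  have hlam : 10 ^ 6 ≤ lam := hp.big
  have hn0 : (0 : ℝ) < n := by linarith
  have h1 := pipeline (ss n) hq7 (qq n) (tau n) ((n : ℝ) ^ (-(1 / 3200) : ℝ)) hq1 hq2
    (by linarith) hq4 hq5 A hA g hg
  simp only [hq6] at h1
  refine h1.trans ?_
  -- the sum over the data
  have h2 : ∑ d ∈ A.image (fun P => (dirG P, arcP (ss n) P)),
      g d.1 d.2 * ∏ p ∈ Rem d.1 d.2, ((kap d.1 d.2 p : ℝ) + xi n) ≤
      ∑ d ∈ ((univ : Finset (SimpleGraph (Fin n))).filter (fun F => F ≤ G)) ×ˢ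
        ArcV n (n / ss n), Real.exp B * (w d.1 * Real.exp (-(0.05 * lam)) ^ nb d.2) := by
    refine (Finset.sum_le_sum (g := fun d => Real.exp B *
      (w d.1 * Real.exp (-(0.05 * lam)) ^ nb d.2)) ?_).trans ?_
    · intro d hd
      obtain ⟨P, hP, rfl⟩ := mem_image.1 hd
      exact hb P hP
    · refine Finset.sum_le_sum_of_subset_of_nonneg ?_ ?_
      · intro d hd
        obtain ⟨P, hP, rfl⟩ := mem_image.1 hd
        have hP' : P.Consistent := by
          have := hA hP
          simpa [Al] using this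
        refine mem_product.2 ⟨?_, arcP_mem_ArcV hq7⟩
        simpa using dirG_le hP'
      · intro d _ _
        have := hw d.1
        positivity
  have h3 : ∑ d ∈ ((univ : Finset (SimpleGraph (Fin n))).filter (fun F => F ≤ G)) ×ˢ
        ArcV n (n / ss n), Real.exp B * (w d.1 * Real.exp (-(0.05 * lam)) ^ nb d.2) =
      Real.exp B * ((∑ F ∈ (univ : Finset (SimpleGraph (Fin n))).filter (fun F => F ≤ G), w F) *
        ∑ a ∈ ArcV n (n / ss n), Real.exp (-(0.05 * lam)) ^ nb a) := by
    rw [← Finset.mul_sum, Finset.sum_mul_sum, Finset.sum_product]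
  rw [h3] at h2
  -- bounds for the factors
  have hpow : ((n : ℝ)) ^ (n / ss n * n) ≤ Real.exp (NN n / lam) := by
    have : ((n : ℝ)) ^ (n / ss n * n) = Real.exp (((n / ss n * n : ℕ) : ℝ) * Real.log n) := by
      rw [← Real.rpow_natCast, Real.rpow_def_of_pos hn0, mul_comm]
    rw [this]
    exact Real.exp_le_exp.2 (num_rev hp)
  have harc : ∑ a ∈ ArcV n (n / ss n), Real.exp (-(0.05 * lam)) ^ nb a ≤
      Real.exp (NN n / lam) * Real.exp (NN n / lam) := by
    refine (arc_sum n (n / ss n) _ (Real.exp_pos _).le).trans ?_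
    refine mul_le_mul hpow ?_ (by positivity) (by positivity)
    have h4 : 1 + ((n / ss n : ℕ) : ℝ) * Real.exp (-(0.05 * lam)) ≤
        Real.exp (((n / ss n : ℕ) : ℝ) * Real.exp (-(0.05 * lam))) := by
      have := Real.add_one_le_exp (((n / ss n : ℕ) : ℝ) * Real.exp (-(0.05 * lam)))
      linarith
    calc (1 + ((n / ss n : ℕ) : ℝ) * Real.exp (-(0.05 * lam))) ^ (n ^ 2)
        ≤ (Real.exp (((n / ss n : ℕ) : ℝ) * Real.exp (-(0.05 * lam)))) ^ (n ^ 2) := by
          apply pow_le_pow_left₀ _ h4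
          positivity
      _ = Real.exp ((n : ℝ) ^ 2 * (((n / ss n : ℕ) : ℝ) * Real.exp (-(0.05 * lam)))) := by
          rw [← Real.exp_nat_mul]
          push_cast
          rfl
      _ ≤ Real.exp (NN n / lam) := Real.exp_le_exp.2 (num_arc hp)
  have h31 : (31 : ℝ) ≤ Real.exp (NN n / lam) := by
    have h5 : (31 : ℝ) ≤ NN n / lam := by
      have : (4 * lam : ℝ) ≤ NN n / lam := hn1.trans hn2
      linarith
    have := Real.add_one_le_exp (NN n / lam)
    linarith
  have hs := Real.exp_le_exp.2 (num_s hp)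
  have hsumw : 0 ≤ ∑ F ∈ (univ : Finset (SimpleGraph (Fin n))).filter (fun F => F ≤ G), w F :=
    Finset.sum_nonneg fun F _ => hw F
  have hsuma : 0 ≤ ∑ a ∈ ArcV n (n / ss n), Real.exp (-(0.05 * lam)) ^ nb a :=
    Finset.sum_nonneg fun F _ => by positivity
  set E := Real.exp (NN n / lam) with hE
  have hE0 : 0 < E := Real.exp_pos _
  calc 31 * Real.exp (2 * (n : ℝ) ^ 2 * ss n / qq n) * (n : ℝ) ^ (n / ss n * n) *
        ∑ d ∈ A.image (fun P => (dirG P, arcP (ss n) P)),
          g d.1 d.2 * ∏ p ∈ Rem d.1 d.2, ((kap d.1 d.2 p : ℝ) + xi n)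
      ≤ E * E * E * (Real.exp B * (Real.exp S * (E * E))) := by
        refine mul_le_mul ?_ (h2.trans ?_) ?_ (by positivity)
        · refine mul_le_mul (mul_le_mul h31 hs (by positivity) hE0.le) hpow (by positivity)
            (by positivity)
        · refine mul_le_mul_of_nonneg_left ?_ (Real.exp_pos _).le
          exact mul_le_mul hS harc hsuma (Real.exp_pos _).le
        · refine Finset.sum_nonneg fun d _ => mul_nonneg (hg _ _) ?_
          refine Finset.prod_nonneg fun p _ => ?_
          positivity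
    _ = Real.exp (B + S + 5 * (NN n / lam)) := by
        rw [hE, ← Real.exp_add, ← Real.exp_add, ← Real.exp_add, ← Real.exp_add, ← Real.exp_add]
        congr 1
        ring

lemma ty_prod_eq_exp {F : SimpleGraph (Fin n)} {a : Arc n} {ξ : ℝ} (hξ : 0 < ξ) :
    ∏ p ∈ Rem F a, ((kap F a p : ℝ) + ξ) =
      Real.exp (∑ p ∈ Rem F a, Real.log ((kap F a p : ℝ) + ξ)) := by
  rw [Real.exp_sum]
  refine Finset.prod_congr rfl fun p _ => ?_
  rw [Real.exp_log]
  have : (0 : ℝ) ≤ kap F a p := Nat.cast_nonneg _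
  linarith

/-- systems with many direct pairs are rare -/
lemma ty_count_large (hp : Par n h lam δ) (hG : GoodG δ h G) :
    ((((Al G).filter fun P => 4 * NN n / lam < (nE (dirG P) : ℝ)).card : ℕ) : ℝ) ≤
      Real.exp (NN n * (lam - 1) - 0.2 * NN n + 6 * (NN n / lam)) := by
  obtain ⟨hn1, hn2, hn3, hn4, hn5, hn6, hn7, hn8, hn9⟩ := num_n hp
  obtain ⟨hq1, hq2, hq3, hq4, hq5, hq6, hq7, hq8, hq9⟩ := num_q hp
  have hlam : 10 ^ 6 ≤ lam := hp.big
  set A := (Al G).filter fun P => 4 * NN n / lam < (nE (dirG P) : ℝ) with hAdef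
  have hA : A ⊆ Al G := filter_subset _ _
  have hAc : ∀ P ∈ A, P.Consistent := fun P hP => by
    have := hA hP
    simpa [Al] using this
  have h1 := ty_count_class hp A hA (fun _ _ => 1) (fun _ _ => zero_le_one)
    (fun F => Real.exp (-(0.09 * lam * nE F))) (NN n * (lam - 1) - 0.2 * NN n) (NN n / lam)
    (fun F => (Real.exp_pos _).le) ?_ ?_
  · have h2 : ((A.card : ℕ) : ℝ) ≤ ∑ P ∈ A, (1 : ℝ) * tau n ^ (LLs (ss n) P).card := by
      rw [Finset.card_eq_sum_ones]
      push_cast
      refine Finset.sum_le_sum fun P _ => ?_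
      rw [one_mul]
      exact one_le_pow₀ hq3
    refine h2.trans (h1.trans (Real.exp_le_exp.2 ?_))
    linarith
  · intro P hP
    have hP' := hAc P hP
    rw [hAdef, mem_filter] at hP
    rw [one_mul, ty_prod_eq_exp hq9, ← Real.exp_nat_mul, ← Real.exp_add, ← Real.exp_add]
    apply Real.exp_le_exp.2
    have h3 := potential_large hp hG (dirG_le hP') (arcOK hP' (ss n)) hP.2.le hq9 (num_xi hp)
    have h4 : (0 : ℝ) ≤ nb (arcP (ss n) P) := Nat.cast_nonneg _
    have h5 : 0 ≤ lam * nb (arcP (ss n) P) := by positivity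
    nlinarith
  · have h6 : ∑ F ∈ (univ : Finset (SimpleGraph (Fin n))).filter (fun F => F ≤ G),
        Real.exp (-(0.09 * lam * nE F)) ≤ ∑ F : SimpleGraph (Fin n),
        Real.exp (-(0.09 * lam * nE F)) :=
      Finset.sum_le_sum_of_subset_of_nonneg (filter_subset _ _)
        (fun F _ _ => (Real.exp_pos _).le)
    refine h6.trans ((F_sum' n (0.09 * lam)).trans ?_)
    apply ty_one_add_exp_pow
    have h7 : Real.exp (-(0.09 * lam)) ≤ Real.exp (-(lam / 200)) := by
      apply Real.exp_le_exp.2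
      linarith
    refine le_trans ?_ (num_exp hp)
    exact mul_le_mul_of_nonneg_left h7 hn8.le

/-- the ty_gain -/
def ty_gain (h : ℕ) (lam δ : ℝ) (F : SimpleGraph (Fin n)) (a : Arc n) : ℝ :=
  lam / 4 * f0 F + lam / 200 * MH δ F + 0.04 * lam * nb a + Psi h (xi n) F a

/-- exponential moment of the ty_gain -/
lemma ty_count_small (hp : Par n h lam δ) (hG : GoodG δ h G) :
    ∑ P ∈ (Al G).filter (fun P => (nE (dirG P) : ℝ) ≤ 4 * NN n / lam),
      Real.exp (ty_gain h lam δ (dirG P) (arcP (ss n) P)) * tau n ^ (LLs (ss n) P).card ≤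
      Real.exp (NN n * (lam - 1) + (10 ^ 7 + 8) * (NN n / lam)) := by
  obtain ⟨hn1, hn2, hn3, hn4, hn5, hn6, hn7, hn8, hn9⟩ := num_n hp
  obtain ⟨hq1, hq2, hq3, hq4, hq5, hq6, hq7, hq8, hq9⟩ := num_q hp
  have hlam : 10 ^ 6 ≤ lam := hp.big
  set A := (Al G).filter (fun P => (nE (dirG P) : ℝ) ≤ 4 * NN n / lam) with hAdef
  have hA : A ⊆ Al G := filter_subset _ _
  have hAc : ∀ P ∈ A, P.Consistent := fun P hP => by
    have := hA hP
    simpa [Al] using this
  refine (ty_count_class hp A hA (fun F a => Real.exp (ty_gain h lam δ F a))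
    (fun _ _ => (Real.exp_pos _).le)
    (fun F => Real.exp (-(lam / 4 * f0 F) - lam / 200 * MH δ F))
    (NN n * (lam - 1) + 10 ^ 7 * (NN n / lam)) (3 * (NN n / lam))
    (fun F => (Real.exp_pos _).le) ?_ ?_).trans (Real.exp_le_exp.2 (by linarith))
  · intro P hP
    have hP' := hAc P hP
    rw [hAdef, mem_filter] at hP
    rw [ty_prod_eq_exp hq9, ← Real.exp_nat_mul, ← Real.exp_add, ← Real.exp_add, ← Real.exp_add]
    apply Real.exp_le_exp.2
    have h3 := potential_small hp hG (dirG_le hP') (arcOK hP' (ss n)) hP.2 hq9 (num_xi hp)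
    unfold ty_gain
    have h4 : 10 ^ 7 * NN n / lam = 10 ^ 7 * (NN n / lam) := by ring
    rw [h4] at h3
    linarith
  · refine (F_sum hG.deg (lam / 4) (lam / 200) (by linarith) (by linarith)).trans ?_
    have hb2 : (1 + Real.exp (-(lam / 200))) ^ (n.choose 2) ≤ Real.exp (NN n / lam) :=
      ty_one_add_exp_pow (num_exp hp)
    have hb1 : (1 + Real.exp (-(lam / 4))) ^ (n.choose 2) ≤ Real.exp (NN n / lam) := by
      apply ty_one_add_exp_pow
      have h7 : Real.exp (-(lam / 4)) ≤ Real.exp (-(lam / 200)) := by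
        apply Real.exp_le_exp.2
        linarith
      refine le_trans ?_ (num_exp hp)
      exact mul_le_mul_of_nonneg_left h7 hn8.le
    have hb0 : (2 : ℝ) ^ n ≤ Real.exp (NN n / lam) := by
      have h8 : (2 : ℝ) ≤ Real.exp 1 := by
        have := Real.add_one_le_exp (1 : ℝ)
        linarith
      calc (2 : ℝ) ^ n ≤ (Real.exp 1) ^ n := pow_le_pow_left₀ (by norm_num) h8 n
        _ = Real.exp n := by rw [← Real.exp_nat_mul, mul_one]
        _ ≤ _ := Real.exp_le_exp.2 hn2
    calc 2 ^ n * (1 + Real.exp (-(lam / 4))) ^ (n.choose 2) *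
          (1 + Real.exp (-(lam / 200))) ^ (n.choose 2)
        ≤ Real.exp (NN n / lam) * Real.exp (NN n / lam) * Real.exp (NN n / lam) := by
          refine mul_le_mul (mul_le_mul hb0 hb1 (by positivity) (by positivity)) hb2
            (by positivity) (by positivity)
      _ = Real.exp (3 * (NN n / lam)) := by
          rw [← Real.exp_add, ← Real.exp_add]
          congr 1
          ring

end

theorem typical : ∃ K : ℝ, 0 < K ∧ ∀ (n h : ℕ) (lam δ : ℝ), Par n h lam δ →
    ∀ G : SimpleGraph (Fin n), GoodG δ h G →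
      (((Al G).filter fun P => ¬ Typ K δ lam (xi n) h (ss n) P).card : ℝ) ≤
        ((Al G).card : ℝ) / lam := by
  refine ⟨6400 * (10 ^ 7 + 200), by norm_num, fun n h lam δ hp G hG => ?_⟩
  obtain ⟨hn1, hn2, hn3, hn4, hn5, hn6, hn7, hn8, hn9⟩ := num_n hp
  obtain ⟨hq1, hq2, hq3, hq4, hq5, hq6, hq7, hq8, hq9⟩ := num_q hp
  have hlam : 10 ^ 6 ≤ lam := hp.big
  have hlam0 : 0 < lam := by linarith
  obtain ⟨hAl0, hAl⟩ := lower_sharp hp hG
  have hAlpos : (0 : ℝ) < (Al G).card := by exact_mod_cast hAl0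
  set N := NN n with hN
  set C : ℝ := 10 ^ 7 + 200 with hC
  set A1 := (Al G).filter (fun P => (nE (dirG P) : ℝ) ≤ 4 * N / lam) with hA1
  set A2 := (Al G).filter (fun P => 4 * N / lam < (nE (dirG P) : ℝ)) with hA2
  set A3 := A1.filter (fun P => C * (N / lam) <
    ty_gain h lam δ (dirG P) (arcP (ss n) P) + (LLs (ss n) P).card * Real.log (tau n)) with hA3
  have hexp : Real.exp (N * (lam - 1)) ≤ (Al G).card * Real.exp (100 * (N / lam)) := by
    rw [← Real.exp_log hAlpos, ← Real.exp_add]
    apply Real.exp_le_exp.2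
    have : 100 * N / lam = 100 * (N / lam) := by ring
    rw [this] at hAl
    linarith
  have hsmall : Real.exp (-(2 * (N / lam))) ≤ 1 / (2 * lam) := by
    have h1 : -(2 * (N / lam)) = -(N / lam) + -(N / lam) := by ring
    rw [h1, Real.exp_add]
    have h2 : Real.exp (-(N / lam)) ≤ 1 / lam := by
      rw [Real.exp_neg, one_div]
      apply inv_anti₀ hlam0
      calc lam = Real.exp (Real.log lam) := (Real.exp_log hlam0).symm
        _ ≤ _ := Real.exp_le_exp.2 hn7
    have h3 : Real.exp (-(N / lam)) ≤ 1 / 2 := by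
      refine h2.trans ?_
      rw [div_le_div_iff₀ hlam0 (by norm_num)]
      linarith
    calc Real.exp (-(N / lam)) * Real.exp (-(N / lam)) ≤ (1 / 2) * (1 / lam) :=
          mul_le_mul h3 h2 (Real.exp_pos _).le (by norm_num)
      _ = 1 / (2 * lam) := by ring
  have hNl : 0 < N / lam := by positivity
  -- first class
  have hc2 : (A2.card : ℝ) ≤ (Al G).card * (1 / (2 * lam)) := by
    refine (ty_count_large hp hG).trans ?_
    rw [← hN]
    have h1 : N * (lam - 1) - 0.2 * N + 6 * (N / lam) =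
        N * (lam - 1) + (-(0.2 * N) + 6 * (N / lam)) := by ring
    rw [h1, Real.exp_add]
    have h2 : N = lam * (N / lam) := by field_simp
    calc Real.exp (N * (lam - 1)) * Real.exp (-(0.2 * N) + 6 * (N / lam))
        ≤ ((Al G).card * Real.exp (100 * (N / lam))) * Real.exp (-(0.2 * N) + 6 * (N / lam)) :=
          mul_le_mul_of_nonneg_right hexp (Real.exp_pos _).le
      _ = (Al G).card * Real.exp (100 * (N / lam) + (-(0.2 * N) + 6 * (N / lam))) := by
          rw [mul_assoc, ← Real.exp_add]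
      _ ≤ (Al G).card * Real.exp (-(2 * (N / lam))) := by
          refine mul_le_mul_of_nonneg_left (Real.exp_le_exp.2 ?_) hAlpos.le
          have h3 : 1000 * (N / lam) ≤ 0.2 * N := by
            rw [h2]
            have : lam * (N / lam) / lam = N / lam := by field_simp
            rw [this]
            nlinarith
          linarith
      _ ≤ _ := mul_le_mul_of_nonneg_left hsmall hAlpos.le
  -- second class
  have hc3 : (A3.card : ℝ) ≤ (Al G).card * (1 / (2 * lam)) := by
    have h1 : (A3.card : ℝ) * Real.exp (C * (N / lam)) ≤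
        Real.exp (N * (lam - 1) + (10 ^ 7 + 8) * (N / lam)) := by
      refine le_trans ?_ (ty_count_small hp hG)
      rw [← nsmul_eq_mul]
      refine (Finset.card_nsmul_le_sum A3 (fun P =>
        Real.exp (ty_gain h lam δ (dirG P) (arcP (ss n) P)) * tau n ^ (LLs (ss n) P).card) _
        ?_).trans ?_
      · intro P hP
        rw [hA3, mem_filter] at hP
        have h2 : tau n ^ (LLs (ss n) P).card =
            Real.exp ((LLs (ss n) P).card * Real.log (tau n)) := by
          rw [← Real.rpow_natCast, Real.rpow_def_of_pos (by linarith), mul_comm]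
        rw [h2, ← Real.exp_add]
        exact Real.exp_le_exp.2 hP.2.le
      · refine Finset.sum_le_sum_of_subset_of_nonneg (filter_subset _ _) ?_
        intro P _ _
        have : 0 ≤ tau n := by linarith
        positivity
    have h4 : (A3.card : ℝ) ≤ Real.exp (N * (lam - 1) + (10 ^ 7 + 8) * (N / lam)) *
        Real.exp (-(C * (N / lam))) := by
      rw [Real.exp_neg, ← div_eq_mul_inv, le_div_iff₀ (Real.exp_pos _)]
      exact h1
    refine h4.trans ?_
    rw [Real.exp_add]
    calc Real.exp (N * (lam - 1)) * Real.exp ((10 ^ 7 + 8) * (N / lam)) *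
          Real.exp (-(C * (N / lam)))
        ≤ ((Al G).card * Real.exp (100 * (N / lam))) * Real.exp ((10 ^ 7 + 8) * (N / lam)) *
          Real.exp (-(C * (N / lam))) := by
          gcongr
      _ = (Al G).card * Real.exp (100 * (N / lam) + (10 ^ 7 + 8) * (N / lam) +
          -(C * (N / lam))) := by
          rw [Real.exp_add, Real.exp_add]
          ring
      _ ≤ (Al G).card * Real.exp (-(2 * (N / lam))) := by
          refine mul_le_mul_of_nonneg_left (Real.exp_le_exp.2 ?_) hAlpos.le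
          rw [hC]
          nlinarith
      _ ≤ _ := mul_le_mul_of_nonneg_left hsmall hAlpos.le
  -- conclusion
  have hsub : (Al G).filter (fun P => ¬ Typ (6400 * C) δ lam (xi n) h (ss n) P) ⊆ A2 ∪ A3 := by
    intro P hP
    rw [mem_filter] at hP
    obtain ⟨hP1, hP2⟩ := hP
    have hPc : P.Consistent := by simpa [Al] using hP1
    by_cases hE : (nE (dirG P) : ℝ) ≤ 4 * N / lam
    · refine mem_union_right _ ?_
      rw [hA3, mem_filter, hA1, mem_filter]
      refine ⟨⟨hP1, hE⟩, ?_⟩
      by_contra hcon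
      rw [not_lt] at hcon
      apply hP2
      have g1 : (0 : ℝ) ≤ f0 (dirG P) := Nat.cast_nonneg _
      have g2 : 0 ≤ MH δ (dirG P) := ty_MH_nonneg hG (dirG_le hPc)
      have g3 : (0 : ℝ) ≤ nb (arcP (ss n) P) := Nat.cast_nonneg _
      have g4 : 0 ≤ Psi h (xi n) (dirG P) (arcP (ss n) P) := ty_Psi_nonneg hn9 hq9 _ _
      have g5 : (0 : ℝ) ≤ (LLs (ss n) P).card := Nat.cast_nonneg _
      have g6 : (LLs (ss n) P).card * (lam / 6400) ≤
          (LLs (ss n) P).card * Real.log (tau n) := mul_le_mul_of_nonneg_left hq8 g5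
      have g7 : 0 ≤ lam / 4 * (f0 (dirG P) : ℝ) := by positivity
      have g8 : 0 ≤ lam / 200 * MH δ (dirG P) := by positivity
      have g9 : 0 ≤ 0.04 * lam * (nb (arcP (ss n) P) : ℝ) := by positivity
      have g10 : 0 ≤ (LLs (ss n) P).card * (lam / 6400) := by positivity
      unfold ty_gain at hcon
      have hC0 : 0 < C := by rw [hC]; norm_num
      have key : ∀ (c X : ℝ), 0 < c → 1 / c ≤ 6400 → lam * c * X ≤ C * (N / lam) →
          X ≤ 6400 * C * N / lam ^ 2 := by
        intro c X hc hc' hX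
        rw [le_div_iff₀ (by positivity)]
        have h5 : X * lam ^ 2 = (lam * c * X) * lam * (1 / c) := by
          field_simp
        have h6 : (lam * c * X) * lam ≤ C * N := by
          calc (lam * c * X) * lam ≤ C * (N / lam) * lam := by gcongr
            _ = C * N := by field_simp
        rw [h5]
        calc (lam * c * X) * lam * (1 / c) ≤ C * N * (1 / c) := by gcongr
          _ ≤ C * N * 6400 := by gcongr
          _ = 6400 * C * N := by ring
      refine ⟨hE, ?_, ?_, ?_, ?_, ?_⟩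
      · exact key (1 / 4) _ (by norm_num) (by norm_num) (by linarith)
      · exact key (1 / 200) _ (by norm_num) (by norm_num) (by linarith)
      · exact key 0.04 _ (by norm_num) (by norm_num) (by linarith)
      · exact key (1 / 6400) _ (by norm_num) (by norm_num) (by linarith)
      · have h7 : Psi h (xi n) (dirG P) (arcP (ss n) P) ≤ C * (N / lam) := by linarith
        refine h7.trans ?_
        have h8 : 6400 * C * N / lam = 6400 * (C * (N / lam)) := by ring
        rw [← hN, h8]
        have : 0 ≤ C * (N / lam) := by positivity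
        linarith
    · refine mem_union_left _ ?_
      rw [hA2, mem_filter]
      exact ⟨hP1, not_le.1 hE⟩
  have h9 : (((Al G).filter fun P => ¬ Typ (6400 * C) δ lam (xi n) h (ss n) P).card : ℝ) ≤
      A2.card + A3.card := by
    exact_mod_cast (card_le_card hsub).trans (card_union_le _ _)
  refine h9.trans ?_
  calc (A2.card : ℝ) + A3.card ≤ (Al G).card * (1 / (2 * lam)) + (Al G).card * (1 / (2 * lam)) :=
        add_le_add hc2 hc3
    _ = (Al G).card / lam := by
        field_simp
        ring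

end

end PS
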