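import Pool.Agent.Helper21.PS.AS
import Pool.Agent.Helper21.PS.TY
import Pool.Agent.Helper24.PS.NF
import Pool.Agent.Helper33.PS.RG
import Pool.Agent.Helper38.PS.SC
import Pool.Agent.Helper45.PS.QB
import Pool.Agent.Helper48.PS.KA
import Pool.Agent.Helper67.PS.DI
import Pool.Agent.Helper73.PS.RT
import Pool.Agent.Helper80.PS.NU
import Pool.Agent.Helper87.PS.KB
import Pool.Agent.Helper89.PS.AP
import Pool.Agent.Helper37.PathSys.Final

/-!
# MP_8013d7_co (full answer): the final step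
-/

set_option autoImplicit false

namespace PS

open SimpleGraph Finset Pool.Agent.Helper37.PathSys
open Pool.Agent.Helper37.PathSys.PathSystem
open Filter Topology

open scoped Classical

noncomputable section

/-- deterministic statement -/
lemma fi_met_le : ∃ c : ℝ, 0 < c ∧ ∃ Λ0 : ℝ, ∀ (n h : ℕ) (lam δ : ℝ), Par n h lam δ → Λ0 ≤ lam →
    ∀ G : SimpleGraph (Fin n), GoodG δ h G →
      ((Met G).card : ℝ) ≤ (1 / lam + (1 / 2) ^ n + 32 * lam ^ 2 / (c * n)) * ((Al G).card : ℝ) := by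
  obtain ⟨K, hK, htyp⟩ := typical
  obtain ⟨c, hc, Λ1, hquad⟩ := quad_lower K hK
  obtain ⟨C, hC, Λ2, hsc⟩ := small_cod K hK
  set ρ : ℝ := min (1 / 51200) (c / 10 ^ 8) with hρ
  have hρ0 : 0 < ρ := by
    rw [hρ]
    positivity
  have hρ1 : ρ ≤ 1 / 51200 := min_le_left _ _
  have hρ2 : ρ ≤ c / 10 ^ 8 := min_le_right _ _
  have hε1 : ρ ^ 2 ≤ 1 := by nlinarith
  obtain ⟨Λ4, hRR⟩ := RR_typical (ρ ^ 2) (by positivity) hε1 (5 * K) (by positivity)
  refine ⟨c, hc, max (max Λ1 Λ2) (max (64 * 320000 * C / c) Λ4), ?_⟩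
  intro n h lam δ hp hΛ G hG
  have hΛ1 : Λ1 ≤ lam := ((le_max_left _ _).trans (le_max_left _ _)).trans hΛ
  have hΛ2 : Λ2 ≤ lam := ((le_max_right _ _).trans (le_max_left _ _)).trans hΛ
  have hΛ3 : 64 * 320000 * C / c ≤ lam := ((le_max_left _ _).trans (le_max_right _ _)).trans hΛ
  have hΛ4 : Λ4 ≤ lam := ((le_max_right _ _).trans (le_max_right _ _)).trans hΛ
  obtain ⟨hn1, hn2, hn3, hn4, hn5, hn6, hn7, hn8, hn9⟩ := num_n hp
  obtain ⟨hq1, hq2, hq3, hq4, hq5, hq6, hq7, hq8, hq9⟩ := num_q hp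
  have hlam : 10 ^ 6 ≤ lam := hp.big
  have hlam0 : 0 < lam := by linarith
  have hn0 : (0 : ℝ) < n := by linarith
  set T := (Al G).filter (fun P => ¬ Typ K δ lam (xi n) h (ss n) P) with hT
  set R := (Al G).filter (fun P => (nE (dirG P) : ℝ) ≤ 4 * NN n / lam ∧
        ((NonFree P).card : ℝ) ≤ 5 * K * NN n / lam ^ 2 ∧ ¬ RR (ρ ^ 2) P) with hR
  set M := (Met G).filter (fun P => Typ K δ lam (xi n) h (ss n) P ∧ RR (ρ ^ 2) P) with hM
  have hT' : (T.card : ℝ) ≤ (Al G).card / lam := htyp n h lam δ hp G hG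
  have hR' : (R.card : ℝ) ≤ (1 / 2) ^ n * (Al G).card := hRR n h lam δ hp hΛ4 G
  have hsub : Met G ⊆ (T ∪ R) ∪ M := by
    intro P hP
    have hPA : P ∈ Al G := (mem_filter.1 hP).1
    have hPc : P.Consistent := by simpa [Al] using hPA
    by_cases h1 : Typ K δ lam (xi n) h (ss n) P
    · by_cases h2 : RR (ρ ^ 2) P
      · exact mem_union_right _ (mem_filter.2 ⟨hP, h1, h2⟩)
      · refine mem_union_left _ (mem_union_right _ (mem_filter.2 ⟨hPA, h1.edges, ?_, h2⟩))
        have h3 : ((NonFree P).card : ℝ) ≤ 3 * (nb (arcP (ss n) P)) + 2 * (LLs (ss n) P).card := by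
          have := nonfree_le hPc (ss n)
          have h4 := KKs_card_le (arcP (ss n) P)
          have h5 : (NonFree P).card ≤ 3 * (nb (arcP (ss n) P)) + 2 * (LLs (ss n) P).card := by
            omega
          exact_mod_cast h5
        have h4 := h1.nb
        have h5 := h1.ll
        have h6 : 5 * K * NN n / lam ^ 2 = 3 * (K * NN n / lam ^ 2) + 2 * (K * NN n / lam ^ 2) := by
          ring
        rw [h6]
        linarith
    · exact mem_union_left _ (mem_union_left _ (mem_filter.2 ⟨hPA, h1⟩))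
  have hM' : (M.card : ℝ) ≤ 32 * lam ^ 2 / (c * n) * (Al G).card := by
    have hlow : ∀ P ∈ M, 2 ^ n * (c * (n : ℝ) ^ 4 / (32 * lam ^ 2)) ≤
        ∑ W : Finset (Fin n), ((TT W P).card : ℝ) := by
      intro P hP
      obtain ⟨hP1, hP2, hP3⟩ := mem_filter.1 hP
      have hPA : P ∈ Al G := (mem_filter.1 hP1).1
      have hPc : P.Consistent := by simpa [Al] using hPA
      have hH := Hs_card hp hP2.edges
      set g : ℝ := ((Hs (dirG P)).card : ℝ) with hg
      have hg0 : 0 ≤ g := Nat.cast_nonneg _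
      have hsq : √(ρ ^ 2) = ρ := Real.sqrt_sq hρ0.le
      have hnh : (n : ℝ) / h ≤ lam + 2 := by
        have := abs_le.1 hp.close
        linarith [this.2]
      have hh : (n : ℝ) / (2 * lam) ≤ h := by
        rw [div_le_iff₀ hn9] at hnh
        rw [div_le_iff₀ (by positivity)]
        have : (lam + 2) * h ≤ h * (2 * lam) := by nlinarith
        linarith
      have hcond : 64 * √(ρ ^ 2) * g ≤ h := by
        rw [hsq]
        calc 64 * ρ * g ≤ 64 * (1 / 51200) * (400 * n / lam) := by gcongr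
          _ = n / (2 * lam) := by
            field_simp
            norm_num
          _ ≤ h := hh
      have h1 := many_toggles hPc (ε := ρ ^ 2) (by positivity) hP3 h hcond
        (C * (n : ℝ) ^ 2 / lam)
        (hsc n h (ss n) lam δ (xi n) hp hΛ2 hq9 (num_xi hp) G P hPc hP2)
      refine le_trans ?_ h1
      rw [hsq]
      have h2 := hquad n h (ss n) lam δ (xi n) hp hΛ1 hq9 (num_xi hp) G hG P hPc hP2
      have hg2 : g ^ 2 ≤ 160000 * (n : ℝ) ^ 2 / lam ^ 2 := by
        calc g ^ 2 ≤ (400 * n / lam) ^ 2 := by gcongr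
          _ = 160000 * (n : ℝ) ^ 2 / lam ^ 2 := by ring
      have h3 : 8 * ρ * g ^ 2 * (n : ℝ) ^ 2 ≤ c * (n : ℝ) ^ 4 / (64 * lam ^ 2) := by
        calc 8 * ρ * g ^ 2 * (n : ℝ) ^ 2 ≤ 8 * (c / 10 ^ 8) *
              (160000 * (n : ℝ) ^ 2 / lam ^ 2) * (n : ℝ) ^ 2 := by gcongr
          _ = (8 * 160000 / 10 ^ 8) * (c * (n : ℝ) ^ 4 / lam ^ 2) := by ring
          _ ≤ (1 / 64) * (c * (n : ℝ) ^ 4 / lam ^ 2) := by
              apply mul_le_mul_of_nonneg_right (by norm_num)
              positivity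
          _ = c * (n : ℝ) ^ 4 / (64 * lam ^ 2) := by ring
      have h4 : 2 * (C * (n : ℝ) ^ 2 / lam) * g ^ 2 ≤ c * (n : ℝ) ^ 4 / (64 * lam ^ 2) := by
        calc 2 * (C * (n : ℝ) ^ 2 / lam) * g ^ 2
            ≤ 2 * (C * (n : ℝ) ^ 2 / lam) * (160000 * (n : ℝ) ^ 2 / lam ^ 2) := by gcongr
          _ = (64 * 320000 * C / c) / lam * (c * (n : ℝ) ^ 4 / (64 * lam ^ 2)) := by
              field_simp
              norm_num
          _ ≤ 1 * (c * (n : ℝ) ^ 4 / (64 * lam ^ 2)) := by
              apply mul_le_mul_of_nonneg_right _ (by positivity)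
              rw [div_le_one hlam0]
              exact hΛ3
          _ = _ := one_mul _
      apply mul_le_mul_of_nonneg_left _ (by positivity)
      have h5 : c * (n : ℝ) ^ 4 / (32 * lam ^ 2) =
          (c * (n : ℝ) ^ 4 / lam ^ 2) / 16 - c * (n : ℝ) ^ 4 / (64 * lam ^ 2) -
            c * (n : ℝ) ^ 4 / (64 * lam ^ 2) := by
        field_simp
        norm_num
      rw [h5]
      linarith
    have hup : ∑ P ∈ M, ∑ W : Finset (Fin n), ((TT W P).card : ℝ) ≤
        2 ^ n * ((n : ℝ) ^ 3 * (Al G).card) := by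
      rw [Finset.sum_comm]
      have h1 : ∀ W ∈ (univ : Finset (Finset (Fin n))), ∑ P ∈ M, ((TT W P).card : ℝ) ≤
          (n : ℝ) ^ 3 * (Al G).card := by
        intro W _
        have h2 : ∑ P ∈ M, (TT W P).card ≤ n ^ 3 * (Al G).card :=
          (Finset.sum_le_sum_of_subset (filter_subset _ _)).trans (toggles W)
        exact_mod_cast h2
      refine (Finset.sum_le_card_nsmul _ _ _ h1).trans ?_
      rw [card_univ, Fintype.card_finset, Fintype.card_fin, nsmul_eq_mul]
      push_cast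
      exact le_rfl
    have h2 : (M.card : ℝ) * (2 ^ n * (c * (n : ℝ) ^ 4 / (32 * lam ^ 2))) ≤
        2 ^ n * ((n : ℝ) ^ 3 * (Al G).card) := by
      refine le_trans ?_ hup
      rw [← nsmul_eq_mul]
      exact Finset.card_nsmul_le_sum _ _ _ hlow
    have h3 : (M.card : ℝ) * (c * (n : ℝ) ^ 4 / (32 * lam ^ 2)) ≤ (n : ℝ) ^ 3 * (Al G).card := by
      have h4 : (0 : ℝ) < 2 ^ n := by positivity
      have h5 : (2 : ℝ) ^ n * ((M.card : ℝ) * (c * (n : ℝ) ^ 4 / (32 * lam ^ 2))) ≤
          2 ^ n * ((n : ℝ) ^ 3 * (Al G).card) := by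
        linarith
      exact le_of_mul_le_mul_left h5 h4
    have h4 : 0 < c * (n : ℝ) ^ 4 / (32 * lam ^ 2) := by positivity
    rw [← le_div_iff₀ h4] at h3
    refine h3.trans (le_of_eq ?_)
    field_simp
  have h1 : ((Met G).card : ℝ) ≤ (T.card + R.card) + M.card := by
    exact_mod_cast (card_le_card hsub).trans ((card_union_le _ _).trans
      (Nat.add_le_add_right (card_union_le _ _) _))
  calc ((Met G).card : ℝ) ≤ (T.card + R.card) + M.card := h1
    _ ≤ ((Al G).card / lam + (1 / 2) ^ n * (Al G).card) + 32 * lam ^ 2 / (c * n) * (Al G).card := by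
        gcongr
    _ = _ := by ring

/-- the property of the theorem -/
def FiFine (ε : ℝ) (n : ℕ) (G : SimpleGraph (Fin n)) : Prop :=
  G.Connected ∧
      (({P : PathSystem G | P.Consistent ∧ ∃ w : Sym2 (Fin n) → ℝ, P.Induces w}.ncard : ℝ) ≤
        ε * ({P : PathSystem G | P.Consistent}.ncard : ℝ))

lemma fi_fine_of_good (ε : ℝ) (hε : 0 < ε) : ∀ᶠ n : ℕ in atTop,
    ∀ G : SimpleGraph (Fin n), GoodG (dl n) (hh n) G → FiFine ε n G := by
  obtain ⟨c, hc, Λ0, hmet⟩ := fi_met_le
  have t1 : Tendsto (fun n : ℕ => 1 / lam n) atTop (𝓝 0) := by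
    have h0 := tendsto_inv_atTop_zero.comp lam_tendsto
    refine h0.congr fun n => ?_
    simp [Function.comp]
  have t2 : Tendsto (fun n : ℕ => (1 / 2 : ℝ) ^ n) atTop (𝓝 0) :=
    tendsto_pow_atTop_nhds_zero_of_lt_one (by norm_num) (by norm_num)
  have t3 : Tendsto (fun n : ℕ => 32 * lam n ^ 2 / (c * n)) atTop (𝓝 0) := by
    have h1 := lam_sq_div.const_mul (32 / c)
    rw [mul_zero] at h1
    refine h1.congr fun n => ?_
    by_cases hn : (n : ℝ) = 0
    · simp [hn]
    · field_simp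
  have t4 := (t1.add t2).add t3
  simp only [add_zero] at t4
  filter_upwards [par_eventually Λ0, t4.eventually (gt_mem_nhds hε),
    eventually_ge_atTop 1] with n hpar hlt hn G hG
  obtain ⟨hp, hΛ⟩ := hpar
  refine ⟨?_, ?_⟩
  · apply connected_of_common (H := H0 n (hh n)) hn
    intro u v huv
    have h1 := hG.hub u v huv
    have h2 : (0 : ℝ) < (1 / 4 - dl n) * hh n := by
      have h3 := (num_n hp).2.2.2.2.2.2.2.2
      have h4 : dl n ≤ 1 / 8 := by
        have h5 := hp.dsmall
        have h6 : (8 : ℝ) ≤ lam n ^ 4 := by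
          have h7 := hp.big
          have h8 : (8 : ℝ) ≤ lam n := by linarith
          calc (8 : ℝ) ≤ 8 ^ 4 := by norm_num
            _ ≤ _ := by gcongr
        have h9 := hp.dpos
        nlinarith
      apply mul_pos (by linarith) h3
    have h3 : (0 : ℝ) < (common G (H0 n (hh n)) u v).card := lt_of_lt_of_le h2 h1
    exact_mod_cast h3
  · have h1 := hmet n (hh n) (lam n) (dl n) hp hΛ G hG
    have e1 : {P : PathSystem G | P.Consistent ∧ ∃ w : Sym2 (Fin n) → ℝ, P.Induces w}.ncard =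
        (Met G).card := by
      rw [← Set.ncard_coe_finset]
      congr 1
      ext P
      simp [Met, Al]
    have e2 : {P : PathSystem G | P.Consistent}.ncard = (Al G).card := by
      rw [← Set.ncard_coe_finset]
      congr 1
      ext P
      simp [Al]
    rw [e1, e2]
    refine h1.trans ?_
    apply mul_le_mul_of_nonneg_right hlt.le (Nat.cast_nonneg _)

theorem final (ε : ℝ) (hε : 0 < ε) : Tendsto (fun n : ℕ =>
    (({G : SimpleGraph (Fin n) | G.Connected ∧
      (({P : PathSystem G | P.Consistent ∧ ∃ w : Sym2 (Fin n) → ℝ, P.Induces w}.ncard : ℝ) ≤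
        ε * ({P : PathSystem G | P.Consistent}.ncard : ℝ))}.ncard : ℝ) /
      (Nat.card (SimpleGraph (Fin n)) : ℝ))) atTop (𝓝 1) := by
  refine tendsto_of_tendsto_of_tendsto_of_le_of_le' good_tendsto tendsto_const_nhds ?_ ?_
  · filter_upwards [fi_fine_of_good ε hε] with n hgood
    rw [Nat.card_eq_fintype_card]
    apply div_le_div_of_nonneg_right _ (Nat.cast_nonneg _)
    rw [← Set.ncard_coe_finset]
    have : ((((univ : Finset (SimpleGraph (Fin n))).filter fun G => GoodG (dl n) (hh n) G) :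
        Finset (SimpleGraph (Fin n))) : Set (SimpleGraph (Fin n))).ncard ≤
        {G : SimpleGraph (Fin n) | FiFine ε n G}.ncard := by
      refine Set.ncard_le_ncard ?_ (Set.toFinite _)
      intro G hG
      rw [mem_coe, mem_filter] at hG
      exact hgood G hG.2
    exact_mod_cast this
  · refine Eventually.of_forall fun n => ?_
    have hT : (0 : ℝ) < (Nat.card (SimpleGraph (Fin n)) : ℝ) := by
      have : 0 < Nat.card (SimpleGraph (Fin n)) := Nat.card_pos
      exact_mod_cast this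
    rw [div_le_one hT]
    have := Set.ncard_le_card {G : SimpleGraph (Fin n) | FiFine ε n G}
    exact_mod_cast this

end

end PS
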